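import Mathlib
import Pool.Agent.Helper76.CV.Goals

set_option autoImplicit false

open scoped ContDiff
open Filter Topology

namespace Pool.Agent.Helper14.CV.ZP

open Pool.Agent.Helper76.CV

theorem t (h : Pool.Agent.Helper76.CV.WF1) : Pool.Agent.Helper76.CV.ZP := by
  obtain ⟨hs, hnn, hz, hp⟩ := h
  have hW : ∀ w, w ≤ 4 / 25 → W w ≤ 4 / 25 := by
    intro w hw
    rcases le_or_gt w 0 with h0 | h0
    · rw [(hz w h0).1]; norm_num
    · rw [(hp w h0).1]
      have h1 : Real.exp (-(1 / (1000 * w))) ≤ 1 := by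
        rw [Real.exp_le_one_iff]
        have : 0 ≤ 1 / (1000 * w) := by positivity
        linarith
      calc w * Real.exp (-(1 / (1000 * w))) ≤ w * 1 := mul_le_mul_of_nonneg_left h1 h0.le
        _ ≤ 4 / 25 := by linarith
  refine ⟨?_, ?_, ?_⟩
  · intro q hq
    unfold Z
    have h1 : ContDiffAt ℝ ∞ (fun q : ℝ => √(q + 1 / 10 ^ 6)) q := by
      apply ContDiffAt.sqrt
      · exact contDiffAt_id.add contDiffAt_const
      · have : (0:ℝ) < q + 1 / 10 ^ 6 := by positivity
        exact this.ne'
    exact contDiffAt_const.mul (hs.contDiffAt.comp q (contDiffAt_const.sub h1))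
  · intro q
    unfold Z
    have h1 := hnn (4 / 25 - √(q + 1 / 10 ^ 6))
    have h2 := hW (4 / 25 - √(q + 1 / 10 ^ 6)) (by linarith [Real.sqrt_nonneg (q + 1 / 10 ^ 6)])
    constructor
    · linarith
    · linarith
  · intro q hq
    have hc : ContinuousAt (fun q : ℝ => √(q + 1 / 10 ^ 6)) q :=
      (Real.continuous_sqrt.comp (continuous_id.add continuous_const)).continuousAt
    have h1 : (4 / 25 : ℝ) < √(q + 1 / 10 ^ 6) := by
      apply Real.lt_sqrt_of_sq_lt
      have : (0:ℝ) < 1 / 10 ^ 6 := by positivity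
      linarith
    filter_upwards [hc.eventually_const_lt h1] with q' hq'
    unfold Z
    rw [(hz _ (by linarith)).1, mul_zero]

end Pool.Agent.Helper14.CV.ZP
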